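import Pool.Agent.Run7.h900.BR.Defs

/-!
Piece MAT of project BR (helper900), written by helper989: an intertwining matrix over the two-adic numbers gives
an integral one.
-/

set_option autoImplicit false

namespace Pool.Agent.Run7.h989.BR

open Pool.Agent.Run7.h900.BR Module

/-- a rational functional which keeps the determinant nonzero -/
theorem ex_fun {K : Type} [Field K] [Algebra ℚ K] {n : ℕ} (Φ : Matrix (Fin n) (Fin n) K) (h : Φ.det ≠ 0) :
    ∃ l : K →ₗ[ℚ] ℚ, (Matrix.of fun i j => l (Φ i j)).det ≠ 0 := by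
  classical
  let b := Basis.ofVectorSpace ℚ K
  let s : Finset (Basis.ofVectorSpaceIndex ℚ K) :=
    Finset.univ.biUnion fun i : Fin n => Finset.univ.biUnion fun j : Fin n => (b.repr (Φ i j)).support
  have hs : ∀ i j, (b.repr (Φ i j)).support ⊆ s := by
    intro i j x hx
    simp only [s, Finset.mem_biUnion, Finset.mem_univ, true_and]
    exact ⟨i, j, hx⟩
  have hsum : ∀ i j, ∑ l ∈ s, (b.repr (Φ i j) l) • b l = Φ i j := by
    intro i j
    conv_rhs => rw [← b.linearCombination_repr (Φ i j), Finsupp.linearCombination_apply]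
    rw [Finsupp.sum_of_support_subset _ (hs i j)]
    intro x _
    simp
  let A : Matrix (Fin n) (Fin n) (MvPolynomial (Basis.ofVectorSpaceIndex ℚ K) ℚ) :=
    Matrix.of fun i j => ∑ l ∈ s, MvPolynomial.C (b.repr (Φ i j) l) * MvPolynomial.X l
  have hA : A.det ≠ 0 := by
    intro h0
    apply h
    have h1 : MvPolynomial.aeval (R := ℚ) (fun l => b l) A.det = 0 := by rw [h0, map_zero]
    rw [AlgHom.map_det] at h1
    rw [← h1]
    congr 1
    ext i j
    simp only [A, AlgHom.mapMatrix_apply, Matrix.map_apply, Matrix.of_apply, map_sum, map_mul,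
      MvPolynomial.aeval_X, MvPolynomial.aeval_C]
    refine (hsum i j).symm.trans ?_
    refine Finset.sum_congr rfl fun l _ => ?_
    rw [Algebra.smul_def]
  obtain ⟨t, ht⟩ : ∃ t : Basis.ofVectorSpaceIndex ℚ K → ℚ, MvPolynomial.eval t A.det ≠ 0 := by
    by_contra hcon
    push Not at hcon
    exact hA (MvPolynomial.funext fun x => by rw [hcon x, map_zero])
  refine ⟨∑ l ∈ s, t l • b.coord l, ?_⟩
  rw [RingHom.map_det] at ht
  intro h2
  apply ht
  rw [← h2]
  congr 1
  ext i j
  simp only [A, RingHom.mapMatrix_apply, Matrix.map_apply, Matrix.of_apply, map_sum, map_mul,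
    MvPolynomial.eval_X, MvPolynomial.eval_C, LinearMap.sum_apply, LinearMap.smul_apply, Basis.coord_apply,
    smul_eq_mul]
  refine Finset.sum_congr rfl fun l _ => ?_
  ring

theorem t_MAT : S_MAT := by
  intro n J R R' Φ hΦ hR
  obtain ⟨l, hl⟩ := ex_fun Φ hΦ
  obtain ⟨X, hX⟩ : ∃ X : Matrix (Fin n) (Fin n) ℚ, X = Matrix.of fun i j => l (Φ i j) := ⟨_, rfl⟩
  rw [← hX] at hl
  have hXi : ∀ j, X * (R j).map (Int.cast : ℤ → ℚ) = (R' j).map (Int.cast : ℤ → ℚ) * X := by
    intro j
    ext i k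
    have h := congrArg l (congrFun (congrFun (hR j) i) k)
    simp only [Matrix.mul_apply, Matrix.map_apply, map_sum] at h
    simp only [Matrix.mul_apply, Matrix.map_apply, hX, Matrix.of_apply]
    have e1 : ∀ a, l (Φ i a * ((R j a k : ℤ) : ℚ_[2])) = l (Φ i a) * ((R j a k : ℤ) : ℚ) := by
      intro a
      have : Φ i a * ((R j a k : ℤ) : ℚ_[2]) = (R j a k) • Φ i a := by rw [zsmul_eq_mul, mul_comm]
      rw [this, map_zsmul, zsmul_eq_mul, mul_comm]
    have e2 : ∀ a, l (((R' j i a : ℤ) : ℚ_[2]) * Φ a k) = ((R' j i a : ℤ) : ℚ) * l (Φ a k) := by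
      intro a
      rw [← zsmul_eq_mul, map_zsmul, zsmul_eq_mul]
    simp only [e1, e2] at h
    exact h
  obtain ⟨b, hb⟩ := IsLocalization.exist_integer_multiples_of_finite (nonZeroDivisors ℤ)
    (fun x : Fin n × Fin n => X x.1 x.2)
  choose m hm using hb
  have hb0 : (b : ℤ) ≠ 0 := nonZeroDivisors.coe_ne_zero b
  have hbq : ((b : ℤ) : ℚ) ≠ 0 := by exact_mod_cast hb0
  obtain ⟨M, hM⟩ : ∃ M : Matrix (Fin n) (Fin n) ℤ, M = Matrix.of fun i j => m (i, j) := ⟨_, rfl⟩
  have hMX : M.map (Int.cast : ℤ → ℚ) = ((b : ℤ) : ℚ) • X := by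
    ext i j
    have h := hm (i, j)
    simp only [algebraMap_int_eq, Int.coe_castRingHom, zsmul_eq_mul] at h
    simp only [hM, Matrix.map_apply, Matrix.of_apply, Matrix.smul_apply, smul_eq_mul]
    exact h
  refine ⟨M, ?_, ?_⟩
  · intro h0
    have h1 : (M.map (Int.cast : ℤ → ℚ)).det = 0 := by
      have := (Int.castRingHom ℚ).map_det M
      rw [h0, map_zero] at this
      rw [this]
      rfl
    rw [hMX, Matrix.det_smul] at h1
    rcases mul_eq_zero.1 h1 with h2 | h2
    · exact pow_ne_zero _ hbq h2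
    · exact hl h2
  · intro j
    have h3 : (M * R j).map (Int.cast : ℤ → ℚ) = (R' j * M).map (Int.cast : ℤ → ℚ) := by
      have e1 := Matrix.map_mul (L := M) (M := R j) (f := Int.castRingHom ℚ)
      have e2 := Matrix.map_mul (L := R' j) (M := M) (f := Int.castRingHom ℚ)
      change (M * R j).map (Int.cast : ℤ → ℚ) = M.map (Int.cast : ℤ → ℚ) * (R j).map (Int.cast : ℤ → ℚ) at e1
      change (R' j * M).map (Int.cast : ℤ → ℚ) = (R' j).map (Int.cast : ℤ → ℚ) * M.map (Int.cast : ℤ → ℚ) at e2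
      rw [e1, e2, hMX, Matrix.smul_mul, Matrix.mul_smul, hXi j]
    ext i k
    have h4 := congrFun (congrFun h3 i) k
    simp only [Matrix.map_apply] at h4
    exact_mod_cast h4

end Pool.Agent.Run7.h989.BR
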